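import Pool.Agent.Helper71.ST.Defs
import Mathlib.NumberTheory.AbelSummation

/-!
# Growth of the twisted sum
-/

set_option autoImplicit false

open Finset MeasureTheory
open Pool.Agent.Helper99.MS (GB ff mr ell ell_mono Asum ell_nonneg)
open Pool.Agent.Helper71.ST (Gt Dt)

namespace Pool.Agent.Helper50.ST

theorem norm_ph (v : ℝ) : ‖Complex.exp ((v : ℂ) * Complex.I)‖ = 1 := Complex.norm_exp_ofReal_mul_I v

/-- growth of the twisted sum, by partial summation (helper50) -/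
theorem Dt_growth {B : ℝ} (h : GB (ff mr) B) (t x : ℝ) : ‖Dt mr t x‖ ≤ (1 + 2 * |t|) * B * ell x := by
  have hB := h.nonneg
  have hell := ell_nonneg x
  rcases lt_or_ge x 0 with hx | hx
  · unfold Dt Gt
    rw [Nat.floor_eq_zero.2 (Real.exp_lt_one_iff.2 hx)]
    simp only [Finset.Icc_eq_empty_of_lt (show (0:ℕ) < 1 by norm_num), Finset.sum_empty, zero_mul, norm_zero]
    positivity
  set b := Real.exp x with hb
  have hb1 : 1 ≤ b := Real.one_le_exp hx
  set C := B * ell x with hC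
  have hC0 : 0 ≤ C := mul_nonneg hB hell
  have hmr0 : mr 0 = 0 := by simp [mr]
  -- the bound of the plain sums
  have hS : ∀ y ∈ Set.Icc 1 b, ‖∑ k ∈ Icc 0 ⌊y⌋₊, ((mr k : ℝ) : ℂ)‖ ≤ C * Real.sqrt y := by
    intro y hy
    have hy0 : 0 < y := by linarith [hy.1]
    have e1 : ∑ k ∈ Icc 0 ⌊y⌋₊, ((mr k : ℝ) : ℂ) = ((Asum mr y : ℝ) : ℂ) := by
      unfold Asum
      rw [← Finset.insert_Icc_succ_left_eq_Icc (Nat.zero_le _), Finset.sum_insert (by simp), hmr0]
      push_cast
      simp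
    rw [e1, Complex.norm_real, Real.norm_eq_abs]
    have h1 := h (Real.log y)
    unfold ff at h1
    rw [Real.exp_log hy0, abs_mul, abs_of_pos (Real.exp_pos _)] at h1
    have h2 : ell (Real.log y) ≤ ell x := by
      apply ell_mono
      have h3 : 0 ≤ Real.log y := Real.log_nonneg hy.1
      rw [abs_of_nonneg h3, abs_of_nonneg hx]
      exact (Real.log_le_iff_le_exp hy0).2 hy.2
    have h3 : Real.exp (-(Real.log y / 2)) * Real.sqrt y = 1 := by
      rw [Real.sqrt_eq_rpow, Real.rpow_def_of_pos hy0, ← Real.exp_add]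
      rw [show -(Real.log y / 2) + Real.log y * (1 / 2) = 0 by ring, Real.exp_zero]
    calc |Asum mr y| = |Asum mr y| * Real.exp (-(Real.log y / 2)) * Real.sqrt y := by rw [mul_assoc, h3, mul_one]
      _ ≤ B * ell (Real.log y) * Real.sqrt y := mul_le_mul_of_nonneg_right h1 (Real.sqrt_nonneg _)
      _ ≤ C * Real.sqrt y := mul_le_mul_of_nonneg_right (mul_le_mul_of_nonneg_left h2 hB) (Real.sqrt_nonneg _)
  set f : ℝ → ℂ := fun y => Complex.exp (((t * Real.log y : ℝ) : ℂ) * Complex.I) with hf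
  have hder : ∀ y ∈ Set.Icc 1 b, HasDerivAt f (Complex.exp (((t * Real.log y : ℝ) : ℂ) * Complex.I) * (((t * y⁻¹ : ℝ) : ℂ) * Complex.I)) y := by
    intro y hy
    have hy0 : y ≠ 0 := by linarith [hy.1]
    have h1 : HasDerivAt (fun y => t * Real.log y) (t * y⁻¹) y := (Real.hasDerivAt_log hy0).const_mul t
    exact (h1.ofReal_comp.mul_const Complex.I).cexp
  have hdc : ContinuousOn (fun y : ℝ => Complex.exp (((t * Real.log y : ℝ) : ℂ) * Complex.I) * (((t * y⁻¹ : ℝ) : ℂ) * Complex.I)) (Set.Icc 1 b) := by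
    have hlog : ContinuousOn Real.log (Set.Icc 1 b) := Real.continuousOn_log.mono fun y hy => by
      rw [Set.mem_compl_iff, Set.mem_singleton_iff]; linarith [hy.1]
    have h3 : ContinuousOn (fun y : ℝ => y⁻¹) (Set.Icc 1 b) := continuousOn_inv₀.mono fun y hy => by
      rw [Set.mem_compl_iff, Set.mem_singleton_iff]; linarith [hy.1]
    apply ContinuousOn.mul
    · exact ((Complex.continuous_ofReal.comp_continuousOn (continuousOn_const.mul hlog)).mul continuousOn_const).cexp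
    · exact (Complex.continuous_ofReal.comp_continuousOn (continuousOn_const.mul h3)).mul continuousOn_const
  have hint : IntegrableOn (deriv f) (Set.Icc 1 b) := by
    refine (hdc.integrableOn_compact isCompact_Icc).congr_fun (fun y hy => ?_) measurableSet_Icc
    exact (hder y hy).deriv.symm
  have hmain := sum_mul_eq_sub_integral_mul₀ (fun k : ℕ => ((mr k : ℝ) : ℂ)) (by rw [hmr0]; simp) b
    (fun y hy => (hder y hy).differentiableAt) hint
  have hG : Gt mr t b = ∑ k ∈ Icc 0 ⌊b⌋₊, f k * ((mr k : ℝ) : ℂ) := by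
    unfold Gt
    rw [← Finset.insert_Icc_succ_left_eq_Icc (Nat.zero_le _), Finset.sum_insert (by simp), hmr0]
    simp only [Complex.ofReal_zero, mul_zero, zero_add]
    exact Finset.sum_congr rfl fun k _ => mul_comm _ _
  have hint2 : IntegrableOn (fun y : ℝ => |t| * C * y ^ (-(1 / 2) : ℝ)) (Set.Ioc 1 b) := by
    have h1 : ContinuousOn (fun y : ℝ => |t| * C * y ^ (-(1 / 2) : ℝ)) (Set.Icc 1 b) := by
      apply ContinuousOn.mul continuousOn_const
      exact fun y hy => (Real.continuousAt_rpow_const y _ (Or.inl (by linarith [hy.1]))).continuousWithinAt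
    exact (h1.integrableOn_compact isCompact_Icc).mono_set Set.Ioc_subset_Icc_self
  have hbd : ‖∫ y in Set.Ioc 1 b, deriv f y * ∑ k ∈ Icc 0 ⌊y⌋₊, ((mr k : ℝ) : ℂ)‖ ≤ ∫ y in Set.Ioc 1 b, |t| * C * y ^ (-(1 / 2) : ℝ) := by
    apply norm_integral_le_of_norm_le hint2
    filter_upwards [ae_restrict_mem measurableSet_Ioc] with y hy
    have hy' : y ∈ Set.Icc 1 b := ⟨hy.1.le, hy.2⟩
    have hy0 : 0 < y := by linarith [hy.1]
    rw [(hder y hy').deriv, norm_mul, norm_mul, norm_mul, norm_ph, Complex.norm_I, one_mul, mul_one, Complex.norm_real,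
      Real.norm_eq_abs, abs_mul, abs_of_pos (inv_pos.2 hy0)]
    have h2 := hS y hy'
    have h3 : y ^ (-(1 / 2) : ℝ) = y⁻¹ * Real.sqrt y := by
      rw [Real.sqrt_eq_rpow, ← Real.rpow_neg_one, ← Real.rpow_add hy0]
      norm_num
    rw [h3]
    calc |t| * y⁻¹ * ‖∑ k ∈ Icc 0 ⌊y⌋₊, ((mr k : ℝ) : ℂ)‖ ≤ |t| * y⁻¹ * (C * Real.sqrt y) := by gcongr
      _ = _ := by ring
  have hval : ∫ y in Set.Ioc 1 b, |t| * C * y ^ (-(1 / 2) : ℝ) = 2 * |t| * C * (Real.sqrt b - 1) := by
    rw [← intervalIntegral.integral_of_le hb1, intervalIntegral.integral_const_mul, integral_rpow (Or.inl (by norm_num)),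
      Real.sqrt_eq_rpow]
    norm_num
    ring
  rw [hval] at hbd
  have hA : ‖f b * ∑ k ∈ Icc 0 ⌊b⌋₊, ((mr k : ℝ) : ℂ)‖ ≤ C * Real.sqrt b := by
    rw [norm_mul, hf, norm_ph, one_mul]
    exact hS b ⟨hb1, le_rfl⟩
  have hGb : ‖Gt mr t b‖ ≤ (1 + 2 * |t|) * C * Real.sqrt b := by
    rw [hG, hmain]
    refine (norm_sub_le _ _).trans ?_
    have : 0 ≤ 2 * |t| * C := by positivity
    nlinarith
  unfold Dt
  rw [norm_mul, Complex.norm_exp]
  have h1 : (-((1 / 2 + (t : ℂ) * Complex.I) * x)).re = -(x / 2) := by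
    simp
    ring
  rw [h1]
  have h3 : Real.sqrt b * Real.exp (-(x / 2)) = 1 := by
    rw [Real.sqrt_eq_rpow, hb, ← Real.exp_mul, ← Real.exp_add]
    rw [show x * (1 / 2) + -(x / 2) = 0 by ring, Real.exp_zero]
  calc ‖Gt mr t b‖ * Real.exp (-(x / 2)) ≤ (1 + 2 * |t|) * C * Real.sqrt b * Real.exp (-(x / 2)) :=
        mul_le_mul_of_nonneg_right hGb (Real.exp_pos _).le
    _ = (1 + 2 * |t|) * C := by rw [mul_assoc, h3, mul_one]
    _ = _ := by rw [hC]; ring

end Pool.Agent.Helper50.ST
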